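import Pool.Agent.H95.MuC

set_option autoImplicit false
open Pool.Agent.H95.MuC MeasureTheory ENNReal

theorem Pool.Agent.Results.MP_5b7a98_an.No.result (p : ℝ≥0∞) [Fact (1 ≤ p)] (h1 : 1 < p) (h2 : p < ⊤) :
    AllCompact (lp (fun _ : ℕ => ℝ) p) ∧ AllCompact (Lp ℝ p (volume : Measure unitInterval)) :=
  Pool.Agent.H95.MuC.main p h1 h2
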